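import Pool.Agent.Lib_helper41.TK.W.TI
import Pool.Agent.Lib_helper41.TK.W.TJ
import Pool.Agent.Lib_helper68.KSLF.FNM

/-! TK, block FA. -/

set_option autoImplicit false

namespace Pool.Agent.TK

open Pool.Agent.LEV Pool.Agent.LVB Pool.Agent.KSL
open Pool.Agent.LK (PQ)
open Pool.Agent.FG61 (mu phi cc ff AA Lam)
open Complex MeasureTheory Filter Topology UpperHalfPlane ModularGroup ProbabilityTheory
open scoped MatrixGroups Modular ENNReal ModularForm ComplexConjugate ContDiff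

theorem fa_h {n : ℕ} (hn : 1 ≤ n) (m : ℕ) :
    0 ≤ Real.exp (-2 * Real.pi * m / Real.sqrt n) ∧
      Real.exp (-2 * Real.pi * m / Real.sqrt n) ≤ 1 ∧
      Real.exp (-2 * Real.pi * m / Real.sqrt n) * m ^ 2 ≤ 1 * n := by
  have hNr : (0 : ℝ) < n := by exact_mod_cast hn
  have hsN : 0 < Real.sqrt n := Real.sqrt_pos.mpr hNr
  refine ⟨(Real.exp_pos _).le, ?_, ?_⟩
  · apply Real.exp_le_one_iff.mpr
    have : (0 : ℝ) ≤ 2 * Real.pi * m / Real.sqrt n := by positivity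
    have h4 : -2 * Real.pi * m / Real.sqrt n = -(2 * Real.pi * m / Real.sqrt n) := by ring
    rw [h4]; linarith
  · set x : ℝ := m / Real.sqrt n with hx
    have hx0 : 0 ≤ x := by positivity
    have h4 : -2 * Real.pi * m / Real.sqrt n = -(2 * Real.pi * x) := by rw [hx]; ring
    have h5 : (m : ℝ) ^ 2 = n * x ^ 2 := by
      rw [hx, div_pow, Real.sq_sqrt hNr.le]
      field_simp
    rw [h4, h5, one_mul]
    have h6 : x ^ 2 ≤ Real.exp (2 * Real.pi * x) := by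
      have h7 : x + 1 ≤ Real.exp x := Real.add_one_le_exp x
      have h8 : Real.exp (2 * x) ≤ Real.exp (2 * Real.pi * x) := by
        apply Real.exp_le_exp.mpr
        have := Real.pi_gt_three
        nlinarith
      have h9 : Real.exp (2 * x) = Real.exp x ^ 2 := by
        rw [← Real.exp_nat_mul]
        norm_num
      have h10 : x ^ 2 ≤ Real.exp x ^ 2 := pow_le_pow_left₀ hx0 (by linarith) 2
      linarith
    rw [Real.exp_neg]
    have h7 : 0 < Real.exp (2 * Real.pi * x) := Real.exp_pos _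
    calc (Real.exp (2 * Real.pi * x))⁻¹ * ((n : ℝ) * x ^ 2)
        = (n : ℝ) * (x ^ 2 / Real.exp (2 * Real.pi * x)) := by field_simp
      _ ≤ (n : ℝ) * 1 := by
        apply mul_le_mul_of_nonneg_left _ hNr.le
        rw [div_le_one h7]; exact h6
      _ = n := mul_one _

/-- the square norm of the Dirichlet polynomial of one index -/
theorem fs_normC {δ : ℝ} (h0 : 0 < δ) (h1 : δ < 1 / 4) (C₀ : ℝ) :
    ∃ ε₁ κ C₁ : ℝ, 0 < ε₁ ∧ 0 < κ ∧ ∀ ε₂ : ℝ, 0 < ε₂ → ε₂ ≤ ε₁ → ∃ N₀ : ℕ, ∀ n : ℕ, N₀ ≤ n →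
    ∀ q : ℕ, 1 ≤ q → q ≤ KA ε₂ n → ∀ a : ℕ → ℝ, ShC q (zz n) (KA ε₂ n) a →
    cnC q (zz n) (KA ε₂ n) a ≤ C₀ → ∀ s : ℕ → ℝ, (∀ m, s m ≠ 0 → m ≤ KA ε₂ n) →
    cdC q (zz n) (KA ε₂ n) a s ≤ κ →
      ∑ m ∈ (Finset.Icc 1 (X1 δ n)).filter (fun m => m.Coprime q),
        (2 * Wt n (QQ δ ε₂ n) (wwC q δ ε₂ n a) m / Real.sqrt m) ^ 2 ≤ C₁ := by
  obtain ⟨ε₁, κ, hε₁, hκ, hb⟩ := bulk_genC h0 h1 (ε := 1) one_pos C₀ fnm_kg
  obtain ⟨N₁, hh⟩ := high_genC h0 h1 (ε := 1) one_pos C₀ 1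
  refine ⟨ε₁, κ, 4 * ((5 / 2 * |C₀| + 1) + (|C₀| / 2 + 1)), hε₁, hκ, fun ε₂ h2 h3 => ?_⟩
  obtain ⟨N₂, hb2⟩ := hb ε₂ h2 h3
  refine ⟨N₁ + N₂ + 1, fun n hn q hq1 hq2 a ha hcn s hs hcd => ?_⟩
  have hN1 : 1 ≤ n := by omega
  have hNr : (0 : ℝ) < n := by exact_mod_cast hN1
  have hsN : 0 < Real.sqrt n := Real.sqrt_pos.mpr hNr
  set Q := QQ δ ε₂ n with hQ
  set w := wwC q δ ε₂ n a with hw
  obtain ⟨hbs, hbi, hbv⟩ := hb2 n (by omega) q 1 hq1 hq2 le_rfl (hq1.trans hq2) a ha hcn s hs hcd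
  rw [fnm_g_int, one_mul] at hbv
  rw [Nat.cast_one, mul_one] at hbi hbv
  -- the high part
  obtain ⟨hhs, hhv⟩ := hh n (by omega) q hq1 (KA ε₂ n) a ha.sup hcn
    (fun m => Real.exp (-2 * Real.pi * m / Real.sqrt n)) (fa_h hN1)
  have hd : 1 / (1 - 2 * δ) ≤ 2 := by
    rw [div_le_iff₀ (by linarith)]
    linarith
  have hd0 : 0 < 1 / (1 - 2 * δ) := by
    have : 0 < 1 - 2 * δ := by linarith
    positivity
  have hcn0 : 0 ≤ cnC q (zz n) (KA ε₂ n) a := by
    unfold cnC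
    apply tsum_nonneg
    intro m
    split_ifs
    · positivity
    · exact le_refl _
  have hC : cnC q (zz n) (KA ε₂ n) a ≤ |C₀| := hcn.trans (le_abs_self _)
  have hhv' : ∑ m ∈ (Finset.Icc 1 (X1 δ n)).filter (fun m => m.Coprime q), WW Q w m ^ 2 *
      Real.exp (-2 * Real.pi * m / Real.sqrt n) / m ≤ 5 / 2 * |C₀| + 1 := by
    have h4 : ∑ m ∈ (Finset.Icc 1 (X1 δ n)).filter (fun m => m.Coprime q), WW Q w m ^ 2 *
        Real.exp (-2 * Real.pi * m / Real.sqrt n) / m ≤ ∑' m : ℕ, (if m.Coprime q then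
        WW Q w m ^ 2 * Real.exp (-2 * Real.pi * m / Real.sqrt n) / m else 0) := by
      rw [Finset.sum_filter]
      exact hhs.sum_le_tsum _ (fun m _ => by split_ifs <;> positivity)
    refine h4.trans (hhv.trans ?_)
    nlinarith
  have hlow : ∑ m ∈ (Finset.Icc 1 (X1 δ n)).filter (fun m => m.Coprime q),
      ∫ y in Set.Ioo 0 (2 / Real.sqrt n), Real.pi * Real.exp (-Real.pi * m * y) *
        TT Q w (2 / (y * Real.sqrt n)) m ^ 2 ≤ |C₀| / 2 + 1 := by
    have hm1 : ∀ m ∈ (Finset.Icc 1 (X1 δ n)).filter (fun m => m.Coprime q), 1 ≤ m :=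
      fun m hm => (Finset.mem_Icc.mp (Finset.mem_filter.mp hm).1).1
    rw [← integral_finsetSum _ (fun m hm => (fs_jensen hN1 w (hm1 m hm)).1)]
    refine le_trans ?_ (hbv.trans (by linarith))
    apply setIntegral_mono_on _ hbi measurableSet_Ioo
    · intro y hy
      have hps := hbs y hy.1
      have h4 : ∑ m ∈ (Finset.Icc 1 (X1 δ n)).filter (fun m => m.Coprime q),
          Real.pi * Real.exp (-Real.pi * m * y) * TT Q w (2 / (y * Real.sqrt n)) m ^ 2 =
          ∑ m ∈ Finset.range (X1 δ n), if (m + 1).Coprime q then fnm_g ((m + 1) * y) *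
            TT Q w (2 / (y * Real.sqrt n)) (m + 1) ^ 2 else 0 := by
        rw [Finset.sum_filter, fnm_shift]
        apply Finset.sum_congr rfl
        intro m _
        have h5 : (0 : ℝ) < ((m : ℝ) + 1) * y := mul_pos (by positivity) hy.1
        rw [fnm_g_eq h5]
        by_cases hc : (m + 1).Coprime q
        · rw [if_pos hc, if_pos hc]
          push_cast
          congr 3
          ring
        · rw [if_neg hc, if_neg hc]
      rw [h4]
      exact hps.sum_le_tsum (Finset.range (X1 δ n)) (fun m _ => by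
        split_ifs
        · exact mul_nonneg (fnm_kg.nonneg _) (sq_nonneg _)
        · exact le_rfl)
    · exact integrable_finsetSum _ (fun m hm => (fs_jensen hN1 w (hm1 m hm)).1)
  calc ∑ m ∈ (Finset.Icc 1 (X1 δ n)).filter (fun m => m.Coprime q),
        (2 * Wt n Q w m / Real.sqrt m) ^ 2
      ≤ ∑ m ∈ (Finset.Icc 1 (X1 δ n)).filter (fun m => m.Coprime q), 4 * (WW Q w m ^ 2 *
          Real.exp (-2 * Real.pi * m / Real.sqrt n) / m + ∫ y in Set.Ioo 0 (2 / Real.sqrt n),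
          Real.pi * Real.exp (-Real.pi * m * y) * TT Q w (2 / (y * Real.sqrt n)) m ^ 2) := by
        apply Finset.sum_le_sum
        intro m hm
        have h4 := (fs_jensen (Q := Q) hN1 w
          (Finset.mem_Icc.mp (Finset.mem_filter.mp hm).1).1).2
        have h5 : (2 * Wt n Q w m / Real.sqrt m) ^ 2 = 4 * (Wt n Q w m ^ 2 / m) := by
          rw [div_pow, mul_pow, Real.sq_sqrt (Nat.cast_nonneg m)]
          ring
        rw [h5]
        linarith
    _ = 4 * (∑ m ∈ (Finset.Icc 1 (X1 δ n)).filter (fun m => m.Coprime q), WW Q w m ^ 2 *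
          Real.exp (-2 * Real.pi * m / Real.sqrt n) / m +
          ∑ m ∈ (Finset.Icc 1 (X1 δ n)).filter (fun m => m.Coprime q),
          ∫ y in Set.Ioo 0 (2 / Real.sqrt n),
          Real.pi * Real.exp (-Real.pi * m * y) * TT Q w (2 / (y * Real.sqrt n)) m ^ 2) := by
        rw [← Finset.mul_sum, Finset.sum_add_distrib]
    _ ≤ _ := by linarith

end Pool.Agent.TK
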