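import Pool.Agent.Lib_helper41.TK.Defs2
import Pool.Agent.Lib_helper41.TK.W.AF
import Pool.Agent.Lib_helper41.LVBF.STE
import Pool.Agent.Lib_helper68.LEV.HPO
import Pool.Agent.Lib_helper68.KSLF.BPT
import Pool.Agent.Lib_helper68.KSLF.SPM
import Pool.Agent.Lib_helper68.KSLF.SZF

/-! TK, block FE. -/

set_option autoImplicit false

namespace Pool.Agent.TK

open Pool.Agent.LEV Pool.Agent.LVB Pool.Agent.KSL
open Pool.Agent.LK (PQ)
open Pool.Agent.FG61 (mu phi cc ff AA Lam)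
open Complex MeasureTheory Filter Topology UpperHalfPlane ModularGroup ProbabilityTheory
open scoped MatrixGroups Modular ENNReal ModularForm ComplexConjugate ContDiff

/-! ### the decomposition `l = k m`, `k ∣ q^∞`, `(m, q) = 1` -/

theorem fe_qs_qr (q : ℕ) {m : ℕ} (hm : 1 ≤ m) : qs q m * qr q m = m := by
  unfold qs qr
  rw [Finset.prod_filter_mul_prod_filter_not, ← Nat.prod_factorization_eq_prod_primeFactors]
  exact Nat.prod_factorization_pow_eq_self (by omega)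

theorem fe_qs_pos (q : ℕ) {m : ℕ} (hm : 1 ≤ m) : 1 ≤ qs q m := by
  rcases Nat.eq_zero_or_pos (qs q m) with h | h
  · have := fe_qs_qr q hm
    rw [h, zero_mul] at this
    omega
  · exact h

theorem fe_qr_pos (q : ℕ) {m : ℕ} (hm : 1 ≤ m) : 1 ≤ qr q m := by
  rcases Nat.eq_zero_or_pos (qr q m) with h | h
  · have := fe_qs_qr q hm
    rw [h, mul_zero] at this
    omega
  · exact h

theorem fe_qs_pf {q : ℕ} (hq : 1 ≤ q) (m : ℕ) : (qs q m).primeFactors ⊆ q.primeFactors := by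
  intro p hp
  have hpp := Nat.prime_of_mem_primeFactors hp
  have h1 := Nat.dvd_of_mem_primeFactors hp
  unfold qs at h1
  obtain ⟨p', hp', h2⟩ := (hpp.prime.dvd_finsetProd_iff _).1 h1
  rw [Finset.mem_filter] at hp'
  have h3 := hpp.dvd_of_dvd_pow h2
  have h4 : p = p' :=
    (Nat.prime_dvd_prime_iff_eq hpp (Nat.prime_of_mem_primeFactors hp'.1)).1 h3
  rw [h4]
  exact Nat.mem_primeFactors.2 ⟨Nat.prime_of_mem_primeFactors hp'.1, hp'.2, by omega⟩

theorem fe_qr_cop (q m : ℕ) : (qr q m).Coprime q := by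
  unfold qr
  refine Nat.Coprime.prod_left fun p hp => ?_
  rw [Finset.mem_filter] at hp
  exact Nat.Coprime.pow_left _
    (((Nat.prime_of_mem_primeFactors hp.1).coprime_iff_not_dvd).2 hp.2)

theorem fe_cop {q k l : ℕ} (hk : 1 ≤ k) (hkq : k.primeFactors ⊆ q.primeFactors)
    (hl : l.Coprime q) : k.Coprime l := by
  by_contra h
  obtain ⟨p, hp, h1, h2⟩ := Nat.Prime.not_coprime_iff_dvd.1 h
  have h3 : p ∈ k.primeFactors := Nat.mem_primeFactors.2 ⟨hp, h1, by omega⟩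
  have h4 := Nat.dvd_of_mem_primeFactors (hkq h3)
  exact Nat.Prime.not_coprime_iff_dvd.2 ⟨p, hp, h2, h4⟩ hl

theorem fe_sum {q A : ℕ} (hq : 1 ≤ q) (F : ℕ → ℝ) (hF : ∀ n, A < n → F n = 0) :
    ∑ l ∈ (Finset.Icc 1 A).filter (fun l => l.Coprime q), ∑ k ∈ QI q A, F (k * l) =
      ∑ n ∈ Finset.Icc 1 A, F n := by
  rw [← Finset.sum_product', ← Finset.sum_filter_of_ne (p := fun x : ℕ × ℕ => x.2 * x.1 ≤ A)]
  · refine Finset.sum_bij (fun x _ => x.2 * x.1) ?_ ?_ ?_ ?_
    · intro x hx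
      simp only [QI, Finset.mem_filter, Finset.mem_product, Finset.mem_Icc] at hx
      rw [Finset.mem_Icc]
      exact ⟨Nat.mul_pos (by omega) (by omega), hx.2⟩
    · intro x hx y hy hxy
      simp only [QI, Finset.mem_filter, Finset.mem_product, Finset.mem_Icc] at hx hy
      obtain ⟨⟨⟨hx1, hx2⟩, hx3, hx4⟩, hx5⟩ := hx
      obtain ⟨⟨⟨hy1, hy2⟩, hy3, hy4⟩, hy5⟩ := hy
      have hxy : x.2 * x.1 = y.2 * y.1 := hxy
      have e1 : x.2 ∣ y.2 :=
        (fe_cop (by omega) hx4 hy2).dvd_of_dvd_mul_right (hxy ▸ Dvd.intro _ rfl)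
      have e2 : y.2 ∣ x.2 :=
        (fe_cop (by omega) hy4 hx2).dvd_of_dvd_mul_right (hxy.symm ▸ Dvd.intro _ rfl)
      have e3 := Nat.dvd_antisymm e1 e2
      rw [e3] at hxy
      have e4 := Nat.eq_of_mul_eq_mul_left (show 0 < y.2 by omega) hxy
      exact Prod.ext e4 e3
    · intro n hn
      rw [Finset.mem_Icc] at hn
      have h1 := fe_qs_qr q hn.1
      have h2 := fe_qs_pos q hn.1
      have h3 := fe_qr_pos q hn.1
      refine ⟨(qr q n, qs q n), ?_, h1⟩
      simp only [QI, Finset.mem_filter, Finset.mem_product, Finset.mem_Icc]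
      have h4 : qr q n ≤ n := by
        calc qr q n = 1 * qr q n := (one_mul _).symm
          _ ≤ qs q n * qr q n := Nat.mul_le_mul_right _ h2
          _ = n := h1
      have h5 : qs q n ≤ n := by
        calc qs q n = qs q n * 1 := (mul_one _).symm
          _ ≤ qs q n * qr q n := Nat.mul_le_mul_left _ h3
          _ = n := h1
      exact ⟨⟨⟨⟨h3, h4.trans hn.2⟩, fe_qr_cop q n⟩, ⟨h2, h5.trans hn.2⟩, fe_qs_pf hq n⟩,
        h1.le.trans hn.2⟩
    · intro x _
      rfl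
  · intro x _ hx
    by_contra h
    exact hx (hF _ (by omega))

/-! ### mixed points -/

theorem fe_mix_k {q k : ℕ} (hk : k.primeFactors ⊆ q.primeFactors) (y x : ℕ → ℝ) :
    Um k (fun p => if p ∣ q then y p else x p) = Um k y := by
  unfold Um
  refine Finset.prod_congr rfl fun p hp => ?_
  beta_reduce
  rw [if_pos (Nat.dvd_of_mem_primeFactors (hk hp))]

theorem fe_mix_m {q m : ℕ} (hm : m.Coprime q) (y x : ℕ → ℝ) :
    Um m (fun p => if p ∣ q then y p else x p) = Um m x := by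
  unfold Um
  refine Finset.prod_congr rfl fun p hp => ?_
  beta_reduce
  rw [if_neg]
  intro h
  exact Nat.Prime.not_coprime_iff_dvd.2
    ⟨p, Nat.prime_of_mem_primeFactors hp, Nat.dvd_of_mem_primeFactors hp, h⟩ hm

theorem fe_um_one (x : ℕ → ℝ) : Um 1 x = 1 := by
  unfold Um
  simp

theorem fe_int {I : Finset ℕ} (hI : ∀ p ∈ I, p.Prime) {P : Measure (ℕ → ℝ)} (hP : IsST I P)
    {k : ℕ} (hk : 1 ≤ k) (hkI : k.primeFactors ⊆ I) :
    Integrable (fun y => Um k y * ∏ p ∈ I, er p (y p)) P ∧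
    ∫ y, Um k y * ∏ p ∈ I, er p (y p) ∂P = 1 / Real.sqrt k := by
  obtain ⟨h1, h2⟩ := er_um hI hP hk le_rfl hkI (by simp)
  have h3 : ∀ y : ℕ → ℝ, (∏ p ∈ I, er p (y p)) * Um k y * Um 1 y =
      Um k y * ∏ p ∈ I, er p (y p) := by
    intro y
    rw [fe_um_one, mul_one, mul_comm]
  simp_rw [h3] at h1 h2
  refine ⟨h1, ?_⟩
  rw [h2]
  simp

/-- averaging a polynomial over the variables dividing `q` -/
theorem fe_avg {q z A : ℕ} (hq : 1 ≤ q) {J : Finset ℕ} (hJ : ∀ p ∈ J, p.Prime) {a : ℕ → ℝ}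
    (ha : ∀ k, a k ≠ 0 → smooth z k ∧ k ≤ A) (hz : ∀ m, smooth z m → m.primeFactors ⊆ J)
    {P : Measure (ℕ → ℝ)} (hP : IsST (J.filter (fun p => p ∣ q)) P) (x : ℕ → ℝ) :
    ∑ m ∈ Finset.Icc 1 A, pj q A a m * Um m x =
      ∫ y, (∑ l ∈ Finset.Icc 1 A, a l * Um l (fun p => if p ∣ q then y p else x p)) *
        ∏ p ∈ J.filter (fun p => p ∣ q), er p (y p) ∂P := by
  classical
  have hI : ∀ p ∈ J.filter (fun p => p ∣ q), p.Prime := fun p hp => hJ p (Finset.mem_filter.1 hp).1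
  have h0 : ∀ y : ℕ → ℝ,
      (∑ l ∈ Finset.Icc 1 A, a l * Um l (fun p => if p ∣ q then y p else x p)) *
        ∏ p ∈ J.filter (fun p => p ∣ q), er p (y p) =
      ∑ m ∈ (Finset.Icc 1 A).filter (fun m => m.Coprime q), ∑ k ∈ QI q A,
        (a (k * m) * Um m x) * (Um k y * ∏ p ∈ J.filter (fun p => p ∣ q), er p (y p)) := by
    intro y
    rw [← fe_sum hq (fun l => a l * Um l (fun p => if p ∣ q then y p else x p)) (by
      intro n hn
      have : a n = 0 := by
        by_contra h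
        have := (ha n h).2
        omega
      simp only [this, zero_mul]), Finset.sum_mul]
    refine Finset.sum_congr rfl fun m hm => ?_
    rw [Finset.sum_mul]
    refine Finset.sum_congr rfl fun k hk => ?_
    have hk' : 1 ≤ k ∧ k.primeFactors ⊆ q.primeFactors := by
      simp only [QI, Finset.mem_filter, Finset.mem_Icc] at hk
      exact ⟨hk.1.1, hk.2⟩
    have hm' := (Finset.mem_filter.1 hm).2
    rw [HPO_um_mul (fe_cop hk'.1 hk'.2 hm'), fe_mix_k hk'.2, fe_mix_m hm']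
    ring
  have hint : ∀ m ∈ (Finset.Icc 1 A).filter (fun m => m.Coprime q), ∀ k ∈ QI q A,
      Integrable (fun y => (a (k * m) * Um m x) *
        (Um k y * ∏ p ∈ J.filter (fun p => p ∣ q), er p (y p))) P ∧
      ∫ y, (a (k * m) * Um m x) *
        (Um k y * ∏ p ∈ J.filter (fun p => p ∣ q), er p (y p)) ∂P =
        a (k * m) / Real.sqrt k * Um m x := by
    intro m hm k hk
    by_cases h : a (k * m) = 0
    · simp [h]
    · have hk' : 1 ≤ k ∧ k.primeFactors ⊆ q.primeFactors := by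
        simp only [QI, Finset.mem_filter, Finset.mem_Icc] at hk
        exact ⟨hk.1.1, hk.2⟩
      have hm1 := (Finset.mem_Icc.1 (Finset.mem_filter.1 hm).1).1
      have hkm : (k * m).primeFactors ⊆ J := hz _ (ha _ h).1
      have hkI : k.primeFactors ⊆ J.filter (fun p => p ∣ q) := by
        intro p hp
        rw [Finset.mem_filter]
        refine ⟨hkm ?_, Nat.dvd_of_mem_primeFactors (hk'.2 hp)⟩
        rw [Nat.primeFactors_mul (by omega) (by omega)]
        exact Finset.mem_union_left _ hp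
      obtain ⟨h1, h2⟩ := fe_int hI hP hk'.1 hkI
      refine ⟨h1.const_mul _, ?_⟩
      rw [integral_const_mul, h2]
      ring
  rw [integral_congr_ae (Eventually.of_forall h0), integral_finsetSum _ (fun m hm =>
    integrable_finsetSum _ (fun k hk => (hint m hm k hk).1))]
  have h1 : ∀ m ∈ (Finset.Icc 1 A).filter (fun m => m.Coprime q),
      ∫ y, ∑ k ∈ QI q A, (a (k * m) * Um m x) *
        (Um k y * ∏ p ∈ J.filter (fun p => p ∣ q), er p (y p)) ∂P =
      ∑ k ∈ QI q A, a (k * m) / Real.sqrt k * Um m x := by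
    intro m hm
    rw [integral_finsetSum _ (fun k hk => (hint m hm k hk).1)]
    exact Finset.sum_congr rfl (fun k hk => (hint m hm k hk).2)
  rw [Finset.sum_congr rfl h1, Finset.sum_filter]
  refine Finset.sum_congr rfl fun m _ => ?_
  unfold pj
  split_ifs
  · rw [Finset.sum_mul]
  · rw [zero_mul]

/-! ### the short polynomial -/

theorem fe_sX_abs {q : ℕ} [NeZero q] (χ : DirichletCharacter ℂ q) (s : ℕ → ℝ) (k m : ℕ) :
    |sX χ s k m| ≤ |s (k * m)| := by
  unfold sX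
  split_ifs
  · rw [abs_mul]
    have h1 : |(χ m).re| ≤ 1 := (Complex.abs_re_le_norm _).trans (DirichletCharacter.norm_le_one _ _)
    calc |(χ m).re| * |s (k * m)| ≤ 1 * |s (k * m)| :=
          mul_le_mul_of_nonneg_right h1 (abs_nonneg _)
      _ = _ := one_mul _
  · rw [abs_zero]; exact abs_nonneg _

theorem fe_grow {ε₂ : ℝ} (h2 : 0 < ε₂) (X : ℕ) : ∃ N₀ : ℕ, ∀ N : ℕ, N₀ ≤ N →
    X ≤ KA (ε₂ / 4) N ∧ X ≤ KA ε₂ N ∧ X ≤ zz N := by
  obtain ⟨N₁, h1⟩ := BPT_pow (c := ε₂ / 4) (by positivity) X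
  obtain ⟨N₂, h3⟩ := BPT_pow (c := ε₂) h2 X
  obtain ⟨N₃, h4⟩ := sizes (δ := 1 / 8) (by norm_num) (by norm_num)
    (ε := 1 / (X + 1 : ℝ)) (by positivity)
  refine ⟨max N₁ (max N₂ N₃), fun N hN => ⟨?_, ?_, ?_⟩⟩
  · unfold KA
    exact Nat.le_floor (h1 N (by omega))
  · unfold KA
    exact Nat.le_floor (h3 N (by omega))
  · obtain ⟨-, hz2, -, -, h5, -⟩ := h4 N (by omega)
    have h6 : (X : ℝ) + 1 ≤ Real.log (zz N) := by
      rw [one_div_one_div] at h5
      exact h5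
    have hz0 : (0 : ℝ) < zz N := by
      have : 0 < zz N := by omega
      exact_mod_cast this
    have h7 : Real.log (zz N) ≤ (zz N : ℝ) - 1 := Real.log_le_sub_one_of_pos hz0
    have h8 : (X : ℝ) ≤ zz N := by linarith
    exact_mod_cast h8

/-- the choice of the small factors -/
theorem a_choice : ∃ A₁ : ℕ, 1 ≤ A₁ ∧ ∀ (ε₂ ε : ℝ) (X : ℕ) (s : ℕ → ℝ), 0 < ε₂ → 0 < ε →
    (∀ m, s m ≠ 0 → 1 ≤ m ∧ m ≤ X) → ∃ N₀ : ℕ, ∀ n : ℕ, N₀ ≤ n → ∀ (q : ℕ) [NeZero q]
    (χ : DirichletCharacter ℂ q), PQ χ → ∃ a : ℕ → ℕ → ℝ, ∀ k ∈ QI q X,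
      ShC q (zz n) (KA ε₂ n) (a k) ∧
      cdC q (zz n) (KA ε₂ n) (a k) (sX χ s k) ≤ ε ∧
      cnC q (zz n) (KA ε₂ n) (a k) ≤ ∑ m ∈ Finset.Icc 1 X, sX χ s k m ^ 2 + ε ∧
      ∀ P : Measure (ℕ → ℝ), IsST ((IZ n).filter (fun p => p ∣ q)) P → ∀ x : ℕ → ℝ,
        ∑ m ∈ Finset.Icc 1 (KA ε₂ n), a k m * Um m x =
          (∑ m ∈ Finset.Icc 1 X, sX χ s k m * Um m x) *
            ∫ y, Bz A₁ n (fun p => if p ∣ q then y p else x p) *
              ∏ p ∈ (IZ n).filter (fun p => p ∣ q), er p (y p) ∂P := by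
  classical
  obtain ⟨A₁, hA₁, hsp⟩ := sp_mult
  refine ⟨A₁, hA₁, fun ε₂ ε X s hε₂ hε hs => ?_⟩
  set T : ℕ → ℝ := fun m => ∏ p ∈ m.primeFactors, ((m.factorization p : ℝ) + 1) with hT
  have hT0 : ∀ m, 0 ≤ T m := fun m => Finset.prod_nonneg (fun p _ => by positivity)
  set D : ℝ := ∑ j ∈ Finset.Icc 1 X, ∑ m ∈ Finset.Icc 1 X, |s (j * m)| * T m with hD
  set E : ℝ := ∑ j ∈ Finset.Icc 1 X, ∑ m ∈ Finset.Icc 1 X, s (j * m) ^ 2 with hE
  have hE0 : 0 ≤ E := Finset.sum_nonneg (fun _ _ => Finset.sum_nonneg (fun _ _ => sq_nonneg _))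
  set t : ℝ := min 1 (ε / (2 * Real.sqrt E + 1)) with ht
  have ht0 : 0 < t := lt_min one_pos (by positivity)
  have ht1 : t ≤ 1 := min_le_left _ _
  have htE : 2 * Real.sqrt E * t + t ^ 2 ≤ ε := by
    have h1 : t * (2 * Real.sqrt E + 1) ≤ ε := by
      rw [← le_div_iff₀ (by positivity)]
      exact min_le_right _ _
    nlinarith
  obtain ⟨N₁, hN₁⟩ := hsp ε₂ (min ε (t ^ 2)) (D ^ 4) hε₂ (lt_min hε (by positivity))
  obtain ⟨N₂, hN₂⟩ := iz_split
  obtain ⟨N₃, hN₃⟩ := fe_grow hε₂ X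
  refine ⟨max N₁ (max N₂ N₃), fun n hn q _ χ _ => ?_⟩
  obtain ⟨hX1, hX2, hX3⟩ := hN₃ n (by omega)
  obtain ⟨-, -, hpr', hsm, -⟩ := hN₂ n (by omega)
  have hpr : ∀ p ∈ IZ n, p.Prime := fun p hp => (hpr' p hp).1
  have hq1 : 1 ≤ q := Nat.one_le_iff_ne_zero.2 (NeZero.ne q)
  have hkey : ∀ k, ∃ a : ℕ → ℝ, k ∈ QI q X → ShC q (zz n) (KA ε₂ n) a ∧
      cdC q (zz n) (KA ε₂ n) a (sX χ s k) ≤ ε ∧
      cnC q (zz n) (KA ε₂ n) a ≤ ∑ m ∈ Finset.Icc 1 X, sX χ s k m ^ 2 + ε ∧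
      ∀ P : Measure (ℕ → ℝ), IsST ((IZ n).filter (fun p => p ∣ q)) P → ∀ x : ℕ → ℝ,
        ∑ m ∈ Finset.Icc 1 (KA ε₂ n), a m * Um m x =
          (∑ m ∈ Finset.Icc 1 X, sX χ s k m * Um m x) *
            ∫ y, Bz A₁ n (fun p => if p ∣ q then y p else x p) *
              ∏ p ∈ (IZ n).filter (fun p => p ∣ q), er p (y p) ∂P := by
    intro k
    by_cases hk : k ∈ QI q X
    swap
    · exact ⟨fun _ => 0, fun h => absurd h hk⟩
    have hk1 : 1 ≤ k ∧ k ≤ X := by
      simp only [QI, Finset.mem_filter, Finset.mem_Icc] at hk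
      exact hk.1
    have hkI : k ∈ Finset.Icc 1 X := Finset.mem_Icc.2 hk1
    -- the support
    have hsup : ∀ m, sX χ s k m ≠ 0 → 1 ≤ m ∧ m ≤ X ∧ m.Coprime q := by
      intro m hm
      have hmq : m.Coprime q := by
        by_contra h
        exact hm (by unfold sX; rw [if_neg h])
      have h1 : s (k * m) ≠ 0 := by
        intro h
        exact hm (by unfold sX; rw [h]; simp)
      obtain ⟨h2, h3⟩ := hs _ h1
      have h4 : 1 ≤ m := by
        rcases Nat.eq_zero_or_pos m with h | h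
        · rw [h, mul_zero] at h2; omega
        · exact h
      refine ⟨h4, ?_, hmq⟩
      calc m = 1 * m := (one_mul _).symm
        _ ≤ k * m := Nat.mul_le_mul_right _ hk1.1
        _ ≤ X := h3
    have hpf : ∀ m, 1 ≤ m → m ≤ X → m.primeFactors ⊆ IZ n := by
      intro m hm1 hmX p hp
      unfold IZ
      rw [Finset.mem_filter, Finset.mem_Icc]
      have hpp := Nat.prime_of_mem_primeFactors hp
      refine ⟨⟨hpp.one_lt.le, ?_⟩, hpp⟩
      exact ((Nat.le_of_dvd (by omega) (Nat.dvd_of_mem_primeFactors hp)).trans hmX).trans hX3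
    have hsum : ∀ F : ℕ → ℝ, (∀ m, sX χ s k m = 0 → F m = 0) →
        ∑ m ∈ Finset.Icc 1 (KA ε₂ n), F m = ∑ m ∈ Finset.Icc 1 X, F m := by
      intro F hF
      symm
      apply Finset.sum_subset (Finset.Icc_subset_Icc le_rfl hX2)
      intro m _ hm2
      apply hF
      by_contra h
      exact hm2 (Finset.mem_Icc.2 ⟨(hsup m h).1, (hsup m h).2.1⟩)
    -- a probability measure
    obtain ⟨P₀, hP₀⟩ := st_exists (IZ n) hpr
    have := hP₀.prob
    have hfour : ∫ x, (∑ m ∈ Finset.Icc 1 (KA ε₂ n), sX χ s k m * Um m x) ^ 4 ∂P₀ ≤ D ^ 4 := by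
      have hb : ∀ᵐ x ∂P₀, (∑ m ∈ Finset.Icc 1 (KA ε₂ n), sX χ s k m * Um m x) ^ 4 ≤ D ^ 4 := by
        filter_upwards [hP₀.bdd] with x hx
        rw [hsum (fun m => sX χ s k m * Um m x) (fun m hm => by simp only [hm, zero_mul])]
        have h1 : |∑ m ∈ Finset.Icc 1 X, sX χ s k m * Um m x| ≤ D := by
          calc |∑ m ∈ Finset.Icc 1 X, sX χ s k m * Um m x|
              ≤ ∑ m ∈ Finset.Icc 1 X, |s (k * m)| * T m := by
                refine (Finset.abs_sum_le_sum_abs _ _).trans (Finset.sum_le_sum fun m hm => ?_)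
                rw [abs_mul]
                have hm' := Finset.mem_Icc.1 hm
                exact mul_le_mul (fe_sX_abs χ s k m) (spm_um_bd (hpf m hm'.1 hm'.2) hx)
                  (abs_nonneg _) (abs_nonneg _)
            _ ≤ D := by
                rw [hD]
                exact Finset.single_le_sum
                  (f := fun j => ∑ m ∈ Finset.Icc 1 X, |s (j * m)| * T m)
                  (fun j _ => Finset.sum_nonneg
                    (fun m _ => mul_nonneg (abs_nonneg _) (hT0 m))) hkI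
        calc (∑ m ∈ Finset.Icc 1 X, sX χ s k m * Um m x) ^ 4
            = |∑ m ∈ Finset.Icc 1 X, sX χ s k m * Um m x| ^ 4 := by
              rw [pow_abs, abs_of_nonneg (by positivity)]
          _ ≤ D ^ 4 := pow_le_pow_left₀ (abs_nonneg _) h1 4
      calc ∫ x, (∑ m ∈ Finset.Icc 1 (KA ε₂ n), sX χ s k m * Um m x) ^ 4 ∂P₀
          ≤ ∫ _x, D ^ 4 ∂P₀ := integral_mono_of_nonneg
            (Eventually.of_forall (fun x => by positivity)) (integrable_const _) hb
        _ = D ^ 4 := by simp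
    obtain ⟨a, haS, hab, hcd, hcn⟩ := hN₁ n (by omega) (sX χ s k)
      (fun m hm => ⟨(hsup m hm).1, (hsup m hm).2.1.trans hX1,
        hpf m (hsup m hm).1 (hsup m hm).2.1⟩) P₀ hP₀ hfour
    refine ⟨pj q (KA ε₂ n) a, fun _ => ⟨pj_shc haS hq1, ?_, ?_, ?_⟩⟩
    · exact (pj_cd haS (fun m hm => (hsup m hm).2.1.trans hX2) hq1).trans
        (hcd.trans (min_le_left _ _))
    · refine (pj_cn haS hq1).trans ?_
      rw [hsum (fun m => sX χ s k m ^ 2) (fun m hm => by simp only [hm]; ring)] at hcn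
      set S₂ := ∑ m ∈ Finset.Icc 1 X, sX χ s k m ^ 2 with hS₂
      have hS0 : 0 ≤ S₂ := Finset.sum_nonneg (fun _ _ => sq_nonneg _)
      have hSE : S₂ ≤ E := by
        calc S₂ ≤ ∑ m ∈ Finset.Icc 1 X, s (k * m) ^ 2 := by
              refine Finset.sum_le_sum fun m _ => ?_
              rw [← sq_abs (sX χ s k m), ← sq_abs (s (k * m))]
              exact pow_le_pow_left₀ (abs_nonneg _) (fe_sX_abs χ s k m) 2
          _ ≤ E := by
              rw [hE]
              exact Finset.single_le_sum (f := fun j => ∑ m ∈ Finset.Icc 1 X, s (j * m) ^ 2)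
                (fun j _ => Finset.sum_nonneg (fun m _ => sq_nonneg _)) hkI
      have hcn0 : 0 ≤ cn (zz n) (KA ε₂ n) a := by
        unfold cn
        apply tsum_nonneg
        intro m
        split_ifs
        · positivity
        · exact le_refl _
      have h1 : Real.sqrt (min ε (t ^ 2)) ≤ t := by
        calc Real.sqrt (min ε (t ^ 2)) ≤ Real.sqrt (t ^ 2) := Real.sqrt_le_sqrt (min_le_right _ _)
          _ = t := Real.sqrt_sq ht0.le
      have h2 : Real.sqrt (cn (zz n) (KA ε₂ n) a) ≤ Real.sqrt S₂ + t := hcn.trans (by linarith)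
      have h3 : cn (zz n) (KA ε₂ n) a ≤ (Real.sqrt S₂ + t) ^ 2 := by
        calc cn (zz n) (KA ε₂ n) a = Real.sqrt (cn (zz n) (KA ε₂ n) a) ^ 2 :=
              (Real.sq_sqrt hcn0).symm
          _ ≤ _ := pow_le_pow_left₀ (Real.sqrt_nonneg _) h2 2
      have h4 := Real.sq_sqrt hS0
      have h5 : Real.sqrt S₂ ≤ Real.sqrt E := Real.sqrt_le_sqrt hSE
      have h6 : Real.sqrt S₂ * t ≤ Real.sqrt E * t := mul_le_mul_of_nonneg_right h5 ht0.le
      nlinarith
    · intro P hP x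
      rw [fe_avg hq1 hpr haS.sup (fun m hm => ((hsm m).1 hm).2) hP x, ← integral_const_mul]
      refine integral_congr_ae (Eventually.of_forall fun y => ?_)
      simp only
      rw [hab, hsum (fun m => sX χ s k m * Um m (fun p => if p ∣ q then y p else x p))
        (fun m hm => by simp only [hm, zero_mul])]
      have h1 : ∑ m ∈ Finset.Icc 1 X, sX χ s k m * Um m (fun p => if p ∣ q then y p else x p) =
          ∑ m ∈ Finset.Icc 1 X, sX χ s k m * Um m x := by
        refine Finset.sum_congr rfl fun m _ => ?_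
        by_cases h : sX χ s k m = 0
        · rw [h, zero_mul, zero_mul]
        · rw [fe_mix_m (hsup m h).2.2]
      rw [h1]
      ring
  choose a ha using hkey
  exact ⟨a, fun k hk => ha k hk⟩

end Pool.Agent.TK
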